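import Pool.Agent.X84.Sp.Comp
import Pool.Agent.TH327.Dim.CstH

/-!
# Orbits with spectrum in a closed set, in norm
-/

set_option autoImplicit false

open Filter Topology MeasureTheory Finset
open scoped Pointwise

namespace Pool.Agent.X84.Ns

open Pool.Agent.TH327.Thin
open Pool.Agent.TH327.Dim
open Pool.Agent.Y326 (TwoPoint S_mono S_const S_cmul S_sum S_shift S_cs ex norm_ex ex_add tm wn LW
  lw_of lw_closure lw_scales LD1 fs iter_le)
open Pool.Agent.TH833.BL (S H H_le le_H one_le_log S_add)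
open Pool.Agent.X84.Sp

/-! ### proper subgroups of the circle -/

/-- **Closed subsets of proper subgroups of the circle are null.** -/
theorem null_of_proper {G : AddSubgroup UnitAddCircle} (hG : G ≠ ⊤) {K : Set UnitAddCircle}
    (hK : IsClosed K) (hKG : K ⊆ G) : volume K = 0 := by
  by_contra h
  have h1 : K - K ∈ 𝓝 (0 : UnitAddCircle) :=
    Measure.sub_mem_nhds_zero_of_addHaar_pos volume K hK.measurableSet (pos_iff_ne_zero.2 h)
  have h2 : (G : Set UnitAddCircle) ∈ 𝓝 (0 : UnitAddCircle) := by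
    refine Filter.mem_of_superset h1 ?_
    rintro _ ⟨x, hx, y, hy, rfl⟩
    exact G.sub_mem (hKG hx) (hKG hy)
  have h3 : IsOpen (G : Set UnitAddCircle) := AddSubgroup.isOpen_of_mem_nhds G h2
  have h4 : IsClopen (G : Set UnitAddCircle) := ⟨G.isClosed_of_isOpen h3, h3⟩
  have h5 : (G : Set UnitAddCircle) = Set.univ := h4.eq_univ ⟨0, G.zero_mem⟩
  exact hG (SetLike.coe_injective (h5.trans AddSubgroup.coe_top.symm))

/-! ### windows in Banach spaces -/

section banach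

variable {E : Type*} [NormedAddCommGroup E] [NormedSpace ℂ E] [CompleteSpace E] {f : ℕ → ℤ}
  {K : Set UnitAddCircle}

theorem wnd_banach (hf : ∀ n, |f n| ≤ 1) (hT : TwoPoint f) (hK : IsClosed K) (ε : ℝ) (hε : 0 < ε) :
    ∃ L₀ : ℕ, 1 ≤ L₀ ∧ ∀ L : ℕ, L₀ ≤ L → ∃ N₀ : ℕ, 3 ≤ N₀ ∧ ∀ N : ℕ, N₀ ≤ N →
      ∀ (E : Type*) [NormedAddCommGroup E] [NormedSpace ℂ E] [CompleteSpace E] (a : ℕ → ℤ → E),
        (∀ n k, ‖a n k‖ ≤ 1) → (∀ n, SpecIn K (a n)) → ∀ θ : ℝ,
      S (fun n => ‖∑ h ∈ range L, ((f (n + h) : ℂ) * ex (h * θ)) • a n h‖ ^ 2) N ≤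
        (volume.real K + ε) * L ^ 2 * Real.log N := by
  obtain ⟨L₀, h1, h2⟩ := windows hf hT hK ε hε
  refine ⟨L₀, h1, fun L hL => ?_⟩
  obtain ⟨N₀, h3, h4⟩ := h2 L hL
  refine ⟨N₀, h3, fun N hN E _ _ _ a ha hs θ => ?_⟩
  choose ρ hρ1 hρ2 using fun n : ℕ =>
    norm_func (∑ h ∈ range L, ((f (n + h) : ℂ) * ex (h * θ)) • a n h)
  have h5 := h4 N hN (θ : UnitAddCircle) (fun n k => ρ n (a n k)) (fun n => seqs_of (ha n) (hs n) (hρ1 n))
  refine le_trans (le_of_eq ?_) h5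
  congr 1
  funext n
  rw [← hρ2 n, map_sum]
  congr 2
  refine sum_congr rfl fun k _ => ?_
  rw [map_smul, smul_eq_mul, ex_fourier]
  push_cast
  ring

theorem log_banach (hf : ∀ n, |f n| ≤ 1) (hT : TwoPoint f) (hK : IsClosed K) (ε : ℝ) (hε : 0 < ε) :
    ∃ N₀ : ℕ, ∀ N : ℕ, N₀ ≤ N →
      ∀ (E : Type*) [NormedAddCommGroup E] [NormedSpace ℂ E] [CompleteSpace E] (a : ℤ → E),
        (∀ k, ‖a k‖ ≤ 1) → SpecIn K a → ∀ θ : ℝ,
      ‖∑ n ∈ Icc 1 N, ((f n : ℂ) * ex (n * θ) / n) • a n‖ ≤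
        (Real.sqrt (volume.real K) + ε) * Real.log N := by
  obtain ⟨N₀, h1⟩ := seq_log hf hT hK ε hε
  refine ⟨N₀, fun N hN E _ _ _ a ha hs θ => ?_⟩
  obtain ⟨ρ, hρ1, hρ2⟩ := norm_func (∑ n ∈ Icc 1 N, ((f n : ℂ) * ex (n * θ) / n) • a n)
  have h2 := h1 N hN θ (fun k => ρ (a k)) (seqs_of ha hs hρ1)
  refine le_trans (le_of_eq ?_) h2
  rw [← hρ2, map_sum]
  congr 1
  refine sum_congr rfl fun n _ => ?_
  rw [map_smul, smul_eq_mul]
  ring

omit [CompleteSpace E] in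
/-- shifted vector sequences -/
theorem specIn_shift' {a : ℤ → E} (h : SpecIn K a) (m : ℤ) :
    SpecIn K (fun n => a (n + m)) := by
  rintro f hf ⟨U, hU, hKU, hz⟩
  have h1 := h (fun n => f (n - m)) ((Equiv.subRight m).summable_iff.2 hf |>.congr fun _ => rfl)
    ⟨U, hU, hKU, fun η hη => ?_⟩
  · rw [← h1, ← (Equiv.subRight m).tsum_eq]
    refine tsum_congr fun n => ?_
    simp
  · have h2 := hz η hη
    rw [← (Equiv.addRight m).tsum_eq]
    have : ∀ n : ℤ, f ((Equiv.addRight m) n - m) * fourier ((Equiv.addRight m) n) η =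
        (f n * fourier n η) * fourier m η := by
      intro n
      simp only [Equiv.coe_addRight, add_sub_cancel_right, fourier_add]
      ring
    rw [tsum_congr this, tsum_mul_right, h2, zero_mul]

/-- orbits with null spectrum are disjoint in log mean -/
theorem lw_of_null (hf : ∀ n, |f n| ≤ 1) (hT : TwoPoint f) (hK : IsClosed K)
    (hK0 : volume K = 0) {a : ℤ → E} {B : ℝ} (ha : ∀ n, ‖a n‖ ≤ B) (hs : SpecIn K a) :
    LW f (fun n : ℕ => a n) := by
  obtain ⟨b, hb⟩ : ∃ b : ℝ, b = max B 1 := ⟨_, rfl⟩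
  have hb1 : 1 ≤ b := hb ▸ le_max_right _ _
  have hb0 : (0 : ℝ) < b := by linarith
  have hK0' : volume.real K = 0 := by rw [Measure.real, hK0]; rfl
  refine lw_of hf (B := B) (fun n => ha n) fun η hη => ?_
  obtain ⟨L, hL1, h2⟩ := wnd_banach hf hT hK (η ^ 2 / (2 * b ^ 2)) (by positivity)
  obtain ⟨N₀, h3, h4⟩ := h2 L le_rfl
  refine ⟨L, hL1, N₀, fun N hN θ => ?_⟩
  have hl := one_le_log (h3.trans hN)
  have hL0 : (0 : ℝ) < L := by exact_mod_cast hL1
  have h5 := h4 N hN E (fun n k => ((1 / b : ℝ) : ℂ) • a (k + n)) (fun n k => by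
    rw [norm_smul, Complex.norm_real, Real.norm_eq_abs, abs_of_pos (by positivity)]
    have : ‖a (k + n)‖ ≤ b := (ha _).trans (hb ▸ le_max_left _ _)
    calc 1 / b * ‖a (k + n)‖ ≤ 1 / b * b := mul_le_mul_of_nonneg_left this (by positivity)
      _ = 1 := by field_simp) (fun n => Pool.Agent.TH327.Dim.specIn_smul (specIn_shift' hs n) _) θ
  rw [hK0', zero_add] at h5
  have e : ∀ n, wn f (fun n : ℕ => a n) θ L n =
      b * ‖∑ h ∈ range L, ((f (n + h) : ℂ) * ex (h * θ)) • ((1 / b : ℝ) : ℂ) • a (h + n)‖ := by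
    intro n
    have e1 : ∑ h ∈ range L, tm f (fun n : ℕ => a n) θ (n + h) = (ex (n * θ) * b) •
        ∑ h ∈ range L, ((f (n + h) : ℂ) * ex (h * θ)) • ((1 / b : ℝ) : ℂ) • a (h + n) := by
      rw [smul_sum]
      refine sum_congr rfl fun k _ => ?_
      unfold tm
      have : ex (((n + k : ℕ) : ℝ) * θ) = ex (n * θ) * ex (k * θ) := by
        rw [← ex_add]
        congr 1
        push_cast
        ring
      rw [this, smul_smul, smul_smul]
      have hbc : (b : ℂ) ≠ 0 := by exact_mod_cast hb0.ne'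
      have e2 : ((n + k : ℕ) : ℤ) = (k : ℤ) + n := by push_cast; ring
      show _ • a ((n + k : ℕ) : ℤ) = _
      rw [e2]
      congr 1
      push_cast
      field_simp
    unfold wn
    rw [e1, norm_smul, norm_mul, norm_ex, one_mul, Complex.norm_real, Real.norm_eq_abs,
      abs_of_pos hb0]
  have h6 : S (fun n => wn f (fun n : ℕ => a n) θ L n ^ 2) N ≤ η ^ 2 / 2 * L ^ 2 * Real.log N := by
    have e2 : (fun n => wn f (fun n : ℕ => a n) θ L n ^ 2) = fun n => b ^ 2 *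
        ‖∑ h ∈ range L, ((f (n + h) : ℂ) * ex (h * θ)) • ((1 / b : ℝ) : ℂ) • a (h + n)‖ ^ 2 := by
      funext n
      rw [e, mul_pow]
    rw [e2, S_cmul]
    calc _ ≤ b ^ 2 * (η ^ 2 / (2 * b ^ 2) * L ^ 2 * Real.log N) :=
          mul_le_mul_of_nonneg_left h5 (by positivity)
      _ = _ := by field_simp
  have h7 := S_cs (wn f (fun n : ℕ => a n) θ L) N
  have h8 : S (wn f (fun n : ℕ => a n) θ L) N ^ 2 ≤ (η * L * Real.log N) ^ 2 := by
    refine h7.trans ?_
    have hH : H N ≤ 2 * Real.log N := by linarith [H_le N]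
    calc H N * S (fun n => wn f (fun n : ℕ => a n) θ L n ^ 2) N ≤
        (2 * Real.log N) * (η ^ 2 / 2 * L ^ 2 * Real.log N) :=
          mul_le_mul hH h6 (sum_nonneg fun n _ => by unfold wn; positivity) (by positivity)
      _ = _ := by ring
  exact le_of_sq_le_sq h8 (by positivity)

end banach

end Pool.Agent.X84.Ns
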