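import Pool.Agent.X84.Ns.Core

/-!
# Automorphisms of C*-algebras: elements with null Arveson spectrum
-/

set_option autoImplicit false

open Filter Topology MeasureTheory Finset
open scoped Pointwise

namespace Pool.Agent.X84.Ns

open Pool.Agent.TH327.Thin
open Pool.Agent.TH327.Dim
open Pool.Agent.Y326 (TwoPoint ex norm_ex ex_add tm wn LW lw_of lw_closure lw_scales LD1 fs iter_le)
open Pool.Agent.X84.Sp

variable {A : Type*} [NonUnitalCStarAlgebra A] (α : A ≃⋆ₐ[ℂ] A)

/-- the automorphism as a bounded operator -/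
noncomputable def aL : A →L[ℂ] A :=
  LinearMap.mkContinuous
    { toFun := fun x => α x
      map_add' := fun x y => map_add α x y
      map_smul' := fun c x => map_smul α c x } 1 (fun x => by
        rw [one_mul]
        exact (NonUnitalStarAlgHom.norm_map α α.injective x).le)

theorem aL_norm : ‖aL α‖ ≤ 1 := LinearMap.mkContinuous_norm_le _ zero_le_one _

theorem aL_iter (x : A) (n : ℕ) : ((aL α)^[n]) x = orb α x n := by
  induction n with
  | zero => show x = (α ^ (0 : ℤ)) x; rw [zpow_zero]; rfl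
  | succ n ih =>
    rw [Function.iterate_succ_apply', ih]
    show α ((α ^ (n : ℤ)) x) = (α ^ ((n + 1 : ℕ) : ℤ)) x
    rw [zpow_natCast, zpow_natCast, pow_succ']
    rfl

/-- elements with spectrum in a closed null set -/
def NE : Set A := {x | ∃ K : Set UnitAddCircle, IsClosed K ∧ volume K = 0 ∧ SpecIn K (orb α x)}

/-- elements with spectrum in a closed subset of `G` -/
def GE (G : AddSubgroup UnitAddCircle) : Set A :=
  {x | ∃ K : Set UnitAddCircle, IsClosed K ∧ K ⊆ G ∧ SpecIn K (orb α x)}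

theorem GE_sub {G : AddSubgroup UnitAddCircle} (hG : G ≠ ⊤) : GE α G ⊆ NE α := by
  rintro x ⟨K, hK, hKG, hx⟩
  exact ⟨K, hK, null_of_proper hG hK hKG, hx⟩

/-- the *-subalgebra -/
def GA (G : AddSubgroup UnitAddCircle) : NonUnitalStarSubalgebra ℂ A where
  carrier := GE α G
  mul_mem' := by
    rintro x y ⟨K₁, hK₁, hG₁, hx⟩ ⟨K₂, hK₂, hG₂, hy⟩
    refine ⟨K₁ + K₂, ?_, ?_, ?_⟩
    · exact (hK₁.isCompact.add hK₂.isCompact).isClosed
    · rintro _ ⟨a, ha, b, hb, rfl⟩
      exact G.add_mem (hG₁ ha) (hG₂ hb)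
    · have := el_mul hx hy
      rwa [hK₁.closure_eq, hK₂.closure_eq] at this
  add_mem' := by
    rintro x y ⟨K₁, hK₁, hG₁, hx⟩ ⟨K₂, hK₂, hG₂, hy⟩
    exact ⟨_, hK₁.union hK₂, Set.union_subset hG₁ hG₂, el_add hx hy⟩
  zero_mem' := ⟨{0}, isClosed_singleton, by
    rintro _ rfl
    exact G.zero_mem, el_zero _⟩
  smul_mem' := by
    rintro c x ⟨K, hK, hG, hx⟩
    exact ⟨K, hK, hG, el_smul hx c⟩
  star_mem' := by
    rintro x ⟨K, hK, hG, hx⟩
    refine ⟨_, hK.preimage continuous_neg, ?_, el_star hx⟩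
    intro η hη
    have : -η ∈ G := hG hη
    simpa using G.neg_mem this

variable {α} {f : ℕ → ℤ}

theorem lw_NE (hf : ∀ n, |f n| ≤ 1) (hT : TwoPoint f) {x : A} (hx : x ∈ NE α) :
    LW f (fun n => ((aL α)^[n]) x) := by
  obtain ⟨K, hK, hK0, hs⟩ := hx
  have h1 := lw_of_null hf hT hK hK0 (orb_bound α x) hs
  refine (congrArg (LW f) (funext fun n => ?_)).mp h1
  rw [aL_iter]

theorem lw_NE_span (hf : ∀ n, |f n| ≤ 1) (hT : TwoPoint f) {x : A}
    (hx : x ∈ (Submodule.span ℂ (NE α)).topologicalClosure) : LW f (fun n => ((aL α)^[n]) x) :=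
  lw_closure hf (aL_norm α) (NE α) (fun _ hy => lw_NE hf hT hy) x hx

/-- a generating set with spectra in a proper subgroup -/
theorem span_of_gen {G : AddSubgroup UnitAddCircle} (hG : G ≠ ⊤) {D : Set A} (hD : D ⊆ GE α G)
    (hd : Dense ((NonUnitalStarAlgebra.adjoin ℂ D : NonUnitalStarSubalgebra ℂ A) : Set A)) (x : A) :
    x ∈ (Submodule.span ℂ (NE α)).topologicalClosure := by
  have h1 : NonUnitalStarAlgebra.adjoin ℂ D ≤ GA α G := by
    rw [NonUnitalStarAlgebra.adjoin_le_iff]
    exact hD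
  have h2 : ((NonUnitalStarAlgebra.adjoin ℂ D : NonUnitalStarSubalgebra ℂ A) : Set A) ⊆
      ((Submodule.span ℂ (NE α) : Submodule ℂ A) : Set A) := fun y hy =>
    Submodule.subset_span (GE_sub α hG (h1 hy))
  exact closure_mono h2 (hd x)

section unitary

variable {B : Type*} [CStarAlgebra B]

/-- the differences of the elements of the spectrum -/
def dspec (w : unitary B) : Set UnitAddCircle := uspec w + {θ | -θ ∈ uspec w}

theorem dspec_closed (w : unitary B) : IsClosed (dspec w) :=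
  ((isClosed_uspec w).isCompact.add ((isClosed_uspec w).preimage continuous_neg).isCompact).isClosed

/-- the spectrum lies in a coset of `G` -/
theorem dspec_sub {w : unitary B} {G : AddSubgroup UnitAddCircle} {c : UnitAddCircle}
    (h : ∀ θ ∈ uspec w, θ - c ∈ G) : dspec w ⊆ G := by
  rintro _ ⟨a, ha, b, hb, rfl⟩
  have h1 := h a ha
  have h2 := h (-b) hb
  have h3 := G.sub_mem h1 h2
  have e : a - c - (-b - c) = a + b := by abel
  rw [e] at h3
  exact h3

theorem unit_bound {w : unitary B} (hw : volume (dspec w) = 0) (hf : ∀ n, |f n| ≤ 1)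
    (hT : TwoPoint f) (ε : ℝ) (hε : 0 < ε) : ∃ N₀ : ℕ, ∀ N : ℕ, N₀ ≤ N → ∀ (x : B) (θ : ℝ),
      ‖∑ n ∈ Icc 1 N, ((f n : ℂ) * ex (n * θ) / n) • ((w : B) ^ n * x * star (w : B) ^ n)‖ ≤
        ε * Real.log N * ‖x‖ := by
  obtain ⟨N₀, h1⟩ := log_banach hf hT (dspec_closed w) ε hε
  refine ⟨N₀, fun N hN x θ => ?_⟩
  rcases eq_or_ne x 0 with rfl | hx0
  · simp
  have hn : 0 < ‖x‖ := norm_pos_iff.2 hx0
  have h3 := h1 N hN B (fun n => ((‖x‖⁻¹ : ℝ) : ℂ) •
    (((w ^ n : unitary B) : B) * x * ((w ^ (-n) : unitary B) : B))) (fun n => by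
      rw [norm_smul, Complex.norm_real, norm_inv, norm_norm, inv_mul_le_iff₀ hn, mul_one]
      refine (norm_mul_le _ _).trans ?_
      calc _ ≤ ‖((w ^ n : unitary B) : B) * x‖ * 1 :=
            mul_le_mul_of_nonneg_left (norm_unitary_zpow w (-n)) (norm_nonneg _)
        _ ≤ 1 * ‖x‖ * 1 := by
            apply mul_le_mul_of_nonneg_right _ zero_le_one
            exact (norm_mul_le _ _).trans
              (mul_le_mul_of_nonneg_right (norm_unitary_zpow w n) (norm_nonneg _))
        _ = ‖x‖ := by ring)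
    (Pool.Agent.TH327.Dim.specIn_smul (specIn_uv w w x) _) θ
  have hv : volume.real (dspec w) = 0 := by rw [Measure.real, hw]; rfl
  rw [hv, Real.sqrt_zero, zero_add] at h3
  have e : ∑ n ∈ Icc 1 N, ((f n : ℂ) * ex (n * θ) / n) • ((w : B) ^ n * x * star (w : B) ^ n) =
      (‖x‖ : ℂ) • ∑ n ∈ Icc 1 N, ((f n : ℂ) * ex (n * θ) / n) •
        (((‖x‖⁻¹ : ℝ) : ℂ) • (((w ^ (n : ℤ) : unitary B) : B) * x *
          ((w ^ (-(n : ℤ)) : unitary B) : B))) := by
    rw [smul_sum]
    refine sum_congr rfl fun m _ => ?_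
    rw [smul_comm (‖x‖ : ℂ)]
    congr 1
    rw [smul_smul]
    have : (‖x‖ : ℂ) * ((‖x‖⁻¹ : ℝ) : ℂ) = 1 := by
      rw [← Complex.ofReal_mul, mul_inv_cancel₀ hn.ne', Complex.ofReal_one]
    rw [this, one_smul, zpow_neg, zpow_natCast]
    congr 1
    rw [← star_pow]
    rfl
  rw [e, norm_smul, Complex.norm_real, norm_norm, mul_comm]
  exact mul_le_mul_of_nonneg_right h3 hn.le

/-- automorphisms implemented by a unitary -/
theorem implemented {w : unitary B} (ι : A →⋆ₙₐ[ℂ] B) (hι : Function.Injective ι)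
    (hα : ∀ x, ι (α x) = (w : B) * ι x * star (w : B)) (x : A) : SpecIn (dspec w) (orb α x) := by
  have hpow : ∀ n : ℕ, ∀ x, ι ((α ^ n) x) = (w : B) ^ n * ι x * star (w : B) ^ n := by
    intro n
    induction n with
    | zero => intro x; simp
    | succ n ih =>
      intro x
      rw [pow_succ', pow_succ', pow_succ]
      show ι (α ((α ^ n) x)) = _
      rw [hα, ih]
      simp only [mul_assoc]
  have hzpow : ∀ (n : ℤ) (x : A), ι ((α ^ n) x) =
      ((w ^ n : unitary B) : B) * ι x * ((w ^ (-n) : unitary B) : B) := by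
    intro n x
    rcases n with n | n
    · simp only [Int.ofNat_eq_natCast, zpow_natCast, zpow_neg]
      rw [hpow, ← star_pow]
      rfl
    · simp only [zpow_negSucc]
      have h1 : ι ((α ^ (n + 1)) ((α ^ (n + 1))⁻¹ x)) = ι x := by
        congr 1
        show ((α ^ (n + 1)) * (α ^ (n + 1))⁻¹) x = x
        rw [mul_inv_cancel]
        rfl
      rw [hpow] at h1
      have h2 : star (w : B) ^ (n + 1) * (w : B) ^ (n + 1) = 1 := by
        rw [← star_pow]
        exact Unitary.star_mul_self_of_mem (pow_mem w.2 (n + 1))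
      have h3 : ι ((α ^ (n + 1))⁻¹ x) = star (w : B) ^ (n + 1) * ι x * (w : B) ^ (n + 1) := by
        rw [← h1]
        calc ι ((α ^ (n + 1))⁻¹ x) = 1 * ι ((α ^ (n + 1))⁻¹ x) * 1 := by rw [one_mul, mul_one]
          _ = _ := by rw [← h2]; simp only [mul_assoc]
      rw [h3]
      congr 1
      · congr 1
        rw [← star_pow]
        rfl
      · rw [Int.neg_negSucc, zpow_natCast]
        rfl
  intro f hf hU
  have h0 := specIn_uv w w (ι x) f hf hU
  have hs : Summable fun n : ℤ => f n • orb α x n := by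
    apply Summable.of_norm
    refine Summable.of_nonneg_of_le (fun n => norm_nonneg _) (fun n => ?_) (hf.mul_right ‖x‖)
    rw [norm_smul]
    exact mul_le_mul_of_nonneg_left (norm_orb α x n).le (norm_nonneg _)
  apply hι
  rw [map_zero]
  have hc : Continuous ι := by
    have h5 : Isometry ι :=
      AddMonoidHomClass.isometry_of_norm ι (fun y => NonUnitalStarAlgHom.norm_map ι hι y)
    exact h5.continuous
  rw [(hs.map_tsum ι hc), ← h0]
  refine tsum_congr fun n => ?_
  show ι (f n • (α ^ n) x) = _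
  rw [map_smul, hzpow]

end unitary

end Pool.Agent.X84.Ns
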